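import Mathlib
import Pool.Agent.PDN.Stmts

/-!
# CNT: the numbers of edges and faces
-/

set_option autoImplicit false

namespace Pool.Agent.PDN.H10

open Pool.Agent.PDN

theorem card_sub {α : Type} [Fintype α] (P : α → Prop) [DecidablePred P] :
    Nat.card {p : α // P p} = (Finset.univ.filter P).card := by
  rw [Nat.card_eq_fintype_card, Fintype.card_subtype]

/-- rotation of triples -/
def rot {V : Type} (t : V × V × V) : V × V × V := (t.2.1, t.2.2, t.1)

theorem rot_injective {V : Type} : Function.Injective (rot (V := V)) := by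
  rintro ⟨a, b, c⟩ ⟨a', b', c'⟩ h
  simp only [rot, Prod.mk.injEq] at h
  simp [h.1, h.2.1, h.2.2]

theorem cnt : CntStmt := by
  classical
  intro V _ _ T
  rw [card_sub, card_sub, card_sub]
  constructor
  · set A := Finset.univ.filter (fun p : V × V => T.Adj p.1 p.2 ∧ p.1 < p.2) with hA
    have h1 : Finset.univ.filter (fun p : V × V => T.Adj p.1 p.2) = A ∪ A.image Prod.swap := by
      ext ⟨u, v⟩
      simp only [hA, Finset.mem_filter, Finset.mem_univ, true_and, Finset.mem_union,
        Finset.mem_image, Prod.exists, Prod.swap_prod_mk, Prod.mk.injEq]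
      constructor
      · intro h
        rcases lt_or_gt_of_ne (T.adj_ne h) with h2 | h2
        · exact Or.inl ⟨h, h2⟩
        · exact Or.inr ⟨v, u, ⟨T.adj_symm h, h2⟩, rfl, rfl⟩
      · rintro (h | ⟨a, b, ⟨h, h2⟩, rfl, rfl⟩)
        · exact h.1
        · exact T.adj_symm h
    have h2 : Disjoint A (A.image Prod.swap) := by
      rw [Finset.disjoint_left]
      rintro ⟨u, v⟩ h3 h4
      simp only [hA, Finset.mem_filter, Finset.mem_univ, true_and,
        Finset.mem_image, Prod.exists, Prod.swap_prod_mk, Prod.mk.injEq] at h3 h4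
      obtain ⟨a, b, ⟨h, h5⟩, rfl, rfl⟩ := h4
      exact lt_asymm h3.2 h5
    rw [h1, Finset.card_union_of_disjoint h2,
      Finset.card_image_of_injective _ Prod.swap_injective]
    ring
  · set B := Finset.univ.filter (fun t : V × V × V => T.f t.1 t.2.1 t.2.2 ∧ t.1 < t.2.1 ∧
      t.1 < t.2.2) with hB
    set D := Finset.univ.filter (fun t : V × V × V => T.f t.1 t.2.1 t.2.2) with hD
    have hinj : Set.InjOn (fun t : V × V × V => (t.1, t.2.1)) (D : Set (V × V × V)) := by
      rintro ⟨a, b, c⟩ h1 ⟨a', b', c'⟩ h2 h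
      simp only [hD, Finset.coe_filter, Finset.mem_univ, true_and, Set.mem_ofPred_eq] at h1 h2
      simp only [Prod.mk.injEq] at h
      obtain ⟨rfl, rfl⟩ := h
      rw [T.uniq h1 h2]
    have hBD : B ⊆ D := by
      intro t ht
      simp only [hB, hD, Finset.mem_filter, Finset.mem_univ, true_and] at ht ⊢
      exact ht.1
    have h1 : Finset.univ.filter (fun p : V × V => T.Adj p.1 p.2) =
        D.image (fun t => (t.1, t.2.1)) := by
      ext ⟨u, v⟩
      simp only [hD, Finset.mem_filter, Finset.mem_univ, true_and, Finset.mem_image, Prod.exists,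
        Prod.mk.injEq]
      constructor
      · rintro ⟨w, hw⟩
        exact ⟨u, v, w, hw, rfl, rfl⟩
      · rintro ⟨a, b, c, h, rfl, rfl⟩
        exact ⟨c, h⟩
    have h2 : Finset.univ.filter (fun p : V × V => ∃ w, T.f p.1 p.2 w ∧ p.1 < p.2 ∧ p.1 < w) =
        B.image (fun t => (t.1, t.2.1)) := by
      ext ⟨u, v⟩
      simp only [hB, Finset.mem_filter, Finset.mem_univ, true_and, Finset.mem_image, Prod.exists,
        Prod.mk.injEq]
      constructor
      · rintro ⟨w, hw⟩
        exact ⟨u, v, w, hw, rfl, rfl⟩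
      · rintro ⟨a, b, c, h, rfl, rfl⟩
        exact ⟨c, h⟩
    rw [h1, h2, Finset.card_image_of_injOn hinj,
      Finset.card_image_of_injOn (hinj.mono (by exact_mod_cast hBD))]
    -- the three parts
    have h3 : D = B ∪ (B.image rot ∪ (B.image rot).image rot) := by
      ext ⟨u, v, w⟩
      simp only [hB, hD, Finset.mem_filter, Finset.mem_univ, true_and, Finset.mem_union,
        Finset.mem_image, Prod.exists, rot, Prod.mk.injEq]
      constructor
      · intro h
        have huv := T.ne h
        have hvw := T.ne (T.cyc h)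
        have hwu := T.ne (T.cyc (T.cyc h))
        rcases lt_or_gt_of_ne huv with a1 | a1
        · rcases lt_or_gt_of_ne hwu with a2 | a2
          · -- `w` is least
            right; left
            exact ⟨w, u, v, ⟨T.cyc (T.cyc h), a2, a2.trans a1⟩, rfl, rfl, rfl⟩
          · left
            exact ⟨h, a1, a2⟩
        · rcases lt_or_gt_of_ne hvw with a2 | a2
          · -- `v` is least
            right; right
            exact ⟨w, u, v, ⟨v, w, u, ⟨T.cyc h, a2, a1⟩, rfl, rfl, rfl⟩, rfl, rfl, rfl⟩
          · right; left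
            exact ⟨w, u, v, ⟨T.cyc (T.cyc h), a2.trans a1, a2⟩, rfl, rfl, rfl⟩
      · rintro (h | ⟨a, b, c, ⟨h, h4⟩, rfl, rfl, rfl⟩ |
          ⟨a, b, c, ⟨a', b', c', ⟨h, h4⟩, rfl, rfl, rfl⟩, rfl, rfl, rfl⟩)
        · exact h.1
        · exact T.cyc h
        · exact T.cyc (T.cyc h)
    have h4 : Disjoint (B.image rot) ((B.image rot).image rot) := by
      rw [Finset.disjoint_left]
      rintro ⟨u, v, w⟩ h5 h6
      simp only [hB, Finset.mem_filter, Finset.mem_univ, true_and,
        Finset.mem_image, Prod.exists, rot, Prod.mk.injEq] at h5 h6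
      obtain ⟨a, b, c, ⟨h, h7, h8⟩, rfl, rfl, rfl⟩ := h5
      obtain ⟨a1, b1, c1, ⟨a', b', c', ⟨h9, h10, h11⟩, e1, e2, e3⟩, e4, e5, e6⟩ := h6
      subst e1 e2 e3 e4 e5 e6
      exact lt_asymm h8 h10
    have h5 : Disjoint B (B.image rot ∪ (B.image rot).image rot) := by
      rw [Finset.disjoint_left]
      rintro ⟨u, v, w⟩ h5 h6
      simp only [hB, Finset.mem_filter, Finset.mem_univ, true_and, Finset.mem_union,
        Finset.mem_image, Prod.exists, rot, Prod.mk.injEq] at h5 h6
      rcases h6 with ⟨a, b, c, ⟨h, h7, h8⟩, rfl, rfl, rfl⟩ |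
        ⟨a1, b1, c1, ⟨a', b', c', ⟨h9, h10, h11⟩, e1, e2, e3⟩, e4, e5, e6⟩
      · exact lt_asymm h5.2.2 h7
      · subst e1 e2 e3 e4 e5 e6
        exact lt_asymm h5.2.1 h11
    have c1 : (B.image rot).card = B.card := Finset.card_image_of_injective _ rot_injective
    have c2 : ((B.image rot).image rot).card = B.card := by
      rw [Finset.card_image_of_injective _ rot_injective, c1]
    rw [h3, Finset.card_union_of_disjoint h5, Finset.card_union_of_disjoint h4, c2, c1]
    ring

end Pool.Agent.PDN.H10
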